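import Pool.Agent.Lib.H29P.Defs

namespace Pool.Agent.Lib.H29P

open Finset

private theorem henon_rec (a b : ℝ) (z : ℝ × ℝ) (i : ℕ) :
    ((henon a b)^[i + 1] z).1 * ((henon a b)^[i + 1] z).1 =
      a - ((henon a b)^[i + 2] z).1 - b * ((henon a b)^[i] z).1 := by
  have h1 : (henon a b)^[i + 2] z = henon a b ((henon a b)^[i + 1] z) := Function.iterate_succ_apply' _ _ _
  have h2 : (henon a b)^[i + 1] z = henon a b ((henon a b)^[i] z) := Function.iterate_succ_apply' _ _ _
  have h3 : ((henon a b)^[i + 1] z).2 = ((henon a b)^[i] z).1 := by rw [h2, henon_snd]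
  rw [h1, henon_fst, h3]
  ring

private theorem fin_values (a b : ℝ) (n : ℕ) (hn : 1 ≤ n) (j : ℕ) :
    ((fun z : ℝ × ℝ => ((henon a b)^[j] z).1) '' {z : ℝ × ℝ | (henon a b)^[n] z = z}).Finite := by
  set S : Set (ℝ × ℝ) := {z : ℝ × ℝ | (henon a b)^[n] z = z} with hS
  set c : ℕ → (S → ℝ) := fun i z => ((henon a b)^[i] z.1).1 with hc
  have hper : ∀ i, c (i + n) = c i := by
    intro i
    funext z
    have hz : (henon a b)^[n] z.1 = z.1 := z.2
    simp only [hc]
    rw [Function.iterate_add_apply, hz]
  have hmod : ∀ i, c (i % n) = c i := by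
    intro i
    conv_rhs => rw [← Nat.mod_add_div i n]
    generalize i / n = q
    induction q with
    | zero => simp
    | succ q ih =>
      have : i % n + n * (q + 1) = i % n + n * q + n := by ring
      rw [this, hper, ← ih]
  have hrec : ∀ i, c i * c i = a • (1 : S → ℝ) - c (i + n + 1) - b • c (i + n - 1) := by
    intro i
    funext z
    have h1 := henon_rec a b z.1 (i + n - 1)
    have h2 : i + n - 1 + 1 = i + n := by omega
    have h3 : i + n - 1 + 2 = i + n + 1 := by omega
    rw [h2, h3] at h1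
    have h4 := congrFun (hper i) z
    simp only [hc] at h4
    simp only [hc, Pi.mul_apply, Pi.sub_apply, Pi.smul_apply, Pi.one_apply, smul_eq_mul, mul_one]
    rw [← h4]
    exact h1
  set g : Finset ℕ → (S → ℝ) := fun I => ∏ i ∈ I, c i with hg
  set M : Submodule ℝ (S → ℝ) := Submodule.span ℝ (g '' ((range n).powerset : Set (Finset ℕ))) with hM
  have hgM : ∀ I ⊆ range n, g I ∈ M := fun I hI =>
    Submodule.subset_span ⟨I, Finset.mem_coe.2 (Finset.mem_powerset.2 hI), rfl⟩
  have hkey : ∀ m : ℕ, ∀ I ⊆ range n, I.card = m → ∀ j : ℕ, c j * g I ∈ M := by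
    intro m
    induction m with
    | zero =>
      intro I hI hm j
      rw [Finset.card_eq_zero] at hm
      subst hm
      have h1 : c j * g ∅ = g {j % n} := by
        simp only [hg, Finset.prod_empty, Finset.prod_singleton, mul_one, hmod]
      rw [h1]
      apply hgM
      intro i hi
      rw [Finset.mem_singleton] at hi
      rw [hi, Finset.mem_range]
      exact Nat.mod_lt _ (by omega)
    | succ m ih =>
      intro I hI hm j
      have hjn : j % n < n := Nat.mod_lt _ (by omega)
      rw [← hmod j]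
      generalize j % n = k at hjn
      by_cases hk : k ∈ I
      · have h1 : g I = c k * g (I.erase k) := (Finset.mul_prod_erase I c hk).symm
        have h2 : (I.erase k).card = m := by rw [Finset.card_erase_of_mem hk, hm]; rfl
        have h3 : I.erase k ⊆ range n := (Finset.erase_subset _ _).trans hI
        have h4 : c k * g I = a • g (I.erase k) - c (k + n + 1) * g (I.erase k) -
            b • (c (k + n - 1) * g (I.erase k)) := by
          rw [h1, ← mul_assoc, hrec, sub_mul, sub_mul, smul_mul_assoc, one_mul, smul_mul_assoc]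
        rw [h4]
        exact M.sub_mem (M.sub_mem (M.smul_mem _ (hgM _ h3)) (ih _ h3 h2 _)) (M.smul_mem _ (ih _ h3 h2 _))
      · have h1 : c k * g I = g (insert k I) := (Finset.prod_insert hk).symm
        rw [h1]
        apply hgM
        exact Finset.insert_subset (Finset.mem_range.2 hjn) hI
  have hmul : ∀ x ∈ M, c j * x ∈ M := by
    intro x hx
    refine Submodule.span_induction (p := fun x _ => c j * x ∈ M) ?_ ?_ ?_ ?_ hx
    · rintro _ ⟨I, hI, rfl⟩
      exact hkey _ I (Finset.mem_powerset.1 (Finset.mem_coe.1 hI)) rfl j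
    · rw [mul_zero]
      exact M.zero_mem
    · intro x y _ _ hx hy
      rw [mul_add]
      exact M.add_mem hx hy
    · intro r x _ hx
      rw [mul_smul_comm]
      exact M.smul_mem _ hx
  have hone : (1 : S → ℝ) ∈ M := by
    have := hgM ∅ (Finset.empty_subset _)
    simpa only [hg, Finset.prod_empty] using this
  have hpow : ∀ m : ℕ, c j ^ m ∈ M := by
    intro m
    induction m with
    | zero => rwa [pow_zero]
    | succ m ih =>
      rw [pow_succ']
      exact hmul _ ih
  have hMf : FiniteDimensional ℝ M := by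
    apply FiniteDimensional.span_of_finite
    exact ((range n).powerset.finite_toSet).image g
  have hle : Subalgebra.toSubmodule (Algebra.adjoin ℝ {c j}) ≤ M := by
    intro x hx
    rw [Subalgebra.mem_toSubmodule, Algebra.adjoin_singleton_eq_range_aeval] at hx
    obtain ⟨p, rfl⟩ := hx
    change Polynomial.aeval (c j) p ∈ M
    rw [Polynomial.aeval_eq_sum_range]
    exact M.sum_mem fun i _ => M.smul_mem _ (hpow i)
  have : FiniteDimensional ℝ (Subalgebra.toSubmodule (Algebra.adjoin ℝ {c j})) :=
    Submodule.finiteDimensional_of_le hle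
  have hint : IsIntegral ℝ (c j) := IsIntegral.of_mem_of_fg (Algebra.adjoin ℝ {c j})
    (Module.Finite.iff_fg.1 inferInstance) (c j) (Algebra.self_mem_adjoin_singleton ℝ (c j))
  obtain ⟨p, hp, hp0⟩ := hint
  refine (p.roots.toFinset.finite_toSet).subset ?_
  rintro _ ⟨z, hz, rfl⟩
  rw [Finset.mem_coe, Multiset.mem_toFinset, Polynomial.mem_roots hp.ne_zero]
  have h1 := congrFun hp0 ⟨z, hz⟩
  rw [← Polynomial.aeval_def] at h1
  have h2 : (Polynomial.aeval (c j) p) ⟨z, hz⟩ = p.eval (c j ⟨z, hz⟩) := by
    have h3 := Polynomial.aeval_algHom_apply (Pi.evalAlgHom ℝ (fun _ : S => ℝ) ⟨z, hz⟩) (c j) p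
    rw [Pi.evalAlgHom_apply, Pi.evalAlgHom_apply] at h3
    rw [← h3, Polynomial.coe_aeval_eq_eval]
  rw [h2] at h1
  exact h1

/-- CHUNK C1. `H ^ n` has only finitely many fixed points. PROOF. Let `S` be the set of fixed points, `c i : S → ℝ`,
`c i z = ((henon a b)^[i] z).1` (so `c (i + n) = c i`). One has `c (i+2) = a - c (i+1) ^ 2 - b * c i`, so
`c j ^ 2 = a - c (j+1) - b * c (j-1)` with indices mod `n`. Let `M` be the span in `S → ℝ` of the products
`∏ i ∈ I, c i`, `I ⊆ range n`; it has finite dimension. By induction on `card I`: `c j * ∏ i ∈ I, c i ∈ M` for all `j < n`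
(clear if `j ∉ I`; otherwise `c j * ∏ I = (a - c (j+1) - b * c (j-1)) * ∏ (I.erase j)`). So `M` contains the subalgebra `E`
generated by the `c j`, `E` has finite dimension, there are finitely many algebra maps `E →ₐ[ℝ] ℝ`
(`minpoly.AlgHom.fintype`), and the evaluations at the points of `S` are different algebra maps (`z.1 = c 0 z` and
`z.2 = c (n-1) z`). -/
theorem finite_fix (a b : ℝ) (n : ℕ) (hn : 1 ≤ n) : {z : ℝ × ℝ | (henon a b)^[n] z = z}.Finite := by
  refine ((fin_values a b n hn 0).prod (fin_values a b n hn (n - 1))).subset ?_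
  intro z hz
  refine ⟨⟨z, hz, rfl⟩, ⟨z, hz, ?_⟩⟩
  have h1 : (henon a b)^[n] z = henon a b ((henon a b)^[n - 1] z) := by
    obtain ⟨m, rfl⟩ : ∃ m, n = m + 1 := ⟨n - 1, by omega⟩
    exact Function.iterate_succ_apply' _ _ _
  have h2 : (henon a b)^[n] z = z := hz
  rw [h2] at h1
  have h3 := congrArg Prod.snd h1
  rw [henon_snd] at h3
  exact h3.symm

end Pool.Agent.Lib.H29P
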