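import Mathlib

namespace Pool.Agent.Lib.H29P

/-- CHUNK C2. PROOF. `D^[N]` has the strict derivative `A ^ N` at `p` (`HasStrictFDerivAt.iterate`), so near `p` one has
`‖D^[N] x - p‖ ≤ (3/4) * ‖x - p‖`. If `D^[m] x = x`, `1 ≤ m`, and the orbit stays in `U`, then
`‖x - p‖ = ‖(D^[N])^[m] x - p‖ ≤ (3/4) ^ m * ‖x - p‖`, so `x = p`. -/
theorem local_stable {D : ℝ × ℝ → ℝ × ℝ} {p : ℝ × ℝ} {A : ℝ × ℝ →L[ℝ] ℝ × ℝ} (hp : D p = p)
    (hD : HasStrictFDerivAt D A p) {N : ℕ} (hN : 1 ≤ N) (hA : ‖A ^ N‖ ≤ 1 / 2) :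
    ∃ U ∈ nhds p, ∀ x, x ∈ Function.periodicPts D → (∀ j, D^[j] x ∈ U) → x = p := by
  have hg : HasStrictFDerivAt (D^[N]) (A ^ N) p := hD.iterate hp N
  have hgp : D^[N] p = p := Function.iterate_fixed hp N
  have h1 : ∀ᶠ x in nhds p, ‖D^[N] x - D^[N] p - (A ^ N) (x - p)‖ ≤ 1 / 4 * ‖x - p‖ :=
    hg.hasFDerivAt.isLittleO.def (by norm_num)
  have h2 : ∀ᶠ x in nhds p, ‖D^[N] x - p‖ ≤ 3 / 4 * ‖x - p‖ := by
    filter_upwards [h1] with x hx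
    rw [hgp] at hx
    have h3 : ‖(A ^ N) (x - p)‖ ≤ 1 / 2 * ‖x - p‖ :=
      ((A ^ N).le_opNorm _).trans (mul_le_mul_of_nonneg_right hA (norm_nonneg _))
    have h4 : D^[N] x - p = (D^[N] x - p - (A ^ N) (x - p)) + (A ^ N) (x - p) := by abel
    have h5 := norm_add_le (D^[N] x - p - (A ^ N) (x - p)) ((A ^ N) (x - p))
    rw [← h4] at h5
    linarith
  refine ⟨{x | ‖D^[N] x - p‖ ≤ 3 / 4 * ‖x - p‖}, h2, fun x hx hj => ?_⟩
  obtain ⟨m, hm, hper⟩ := hx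
  have h6 : ∀ k : ℕ, ‖D^[N * k] x - p‖ ≤ (3 / 4) ^ k * ‖x - p‖ := by
    intro k
    induction k with
    | zero => simp
    | succ k ih =>
      have h7 : ‖D^[N] (D^[N * k] x) - p‖ ≤ 3 / 4 * ‖D^[N * k] x - p‖ := hj (N * k)
      rw [← Function.iterate_add_apply] at h7
      rw [Nat.mul_succ, add_comm, pow_succ]
      linarith
  have h8 : D^[N * m] x = x := hper.const_mul N
  have h9 := h6 m
  rw [h8] at h9
  have h10 : ((3 : ℝ) / 4) ^ m ≤ 3 / 4 := pow_le_of_le_one (by norm_num) (by norm_num) hm.ne'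
  have h11 : ‖x - p‖ ≤ 3 / 4 * ‖x - p‖ := h9.trans (mul_le_mul_of_nonneg_right h10 (norm_nonneg _))
  have h12 : ‖x - p‖ = 0 := le_antisymm (by linarith [norm_nonneg (x - p)]) (norm_nonneg _)
  exact sub_eq_zero.1 (norm_eq_zero.1 h12)

end Pool.Agent.Lib.H29P
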