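import Mathlib

namespace Pool.Agent.Lib.H29P

private theorem cone {s u : ℕ → ℝ} {L M ε : ℝ} {T : ℕ} (hT : 1 ≤ T) (hs : ∀ j, s (j + T) = s j)
    (hu : ∀ j, u (j + T) = u j) (hu0 : ∀ j, 0 ≤ u j) (hL : 0 ≤ L) (hM : 1 ≤ M) (hε : 0 < ε) (hLε : L + ε < 1 - ε)
    (h1 : ∀ j, s (j + 1) ≤ L * s j + ε * max (s j) (u j))
    (h2 : ∀ j, M * u j - ε * max (s j) (u j) ≤ u (j + 1)) : ∀ j, s j ≤ u j := by
  have step : ∀ j, s j ≤ u j → s (j + 1) ≤ u (j + 1) := by
    intro j hj
    have a1 := h1 j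
    have a2 := h2 j
    rw [max_eq_right hj] at a1 a2
    have a3 : L * s j ≤ L * u j := mul_le_mul_of_nonneg_left hj hL
    have a4 : (L + ε) * u j ≤ (1 - ε) * u j := mul_le_mul_of_nonneg_right hLε.le (hu0 j)
    have a5 : 1 * u j ≤ M * u j := mul_le_mul_of_nonneg_right hM (hu0 j)
    linarith
  have up : ∀ j, s j ≤ u j → ∀ k, s (j + k) ≤ u (j + k) := by
    intro j hj k
    induction k with
    | zero => exact hj
    | succ k ih => exact step _ ih
  have hs' : ∀ j k, s (j + k * T) = s j := by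
    intro j k
    induction k with
    | zero => rw [Nat.zero_mul, Nat.add_zero]
    | succ k ih => rw [Nat.succ_mul, ← Nat.add_assoc, hs, ih]
  have hu' : ∀ j k, u (j + k * T) = u j := by
    intro j k
    induction k with
    | zero => rw [Nat.zero_mul, Nat.add_zero]
    | succ k ih => rw [Nat.succ_mul, ← Nat.add_assoc, hu, ih]
  by_contra hcon
  push Not at hcon
  obtain ⟨j, hj⟩ := hcon
  have bad : ∀ k, u k < s k := by
    intro k
    by_contra hk
    push Not at hk
    have hle : k ≤ j + k * T := by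
      have : k * 1 ≤ k * T := Nat.mul_le_mul_left k hT
      omega
    have h3 := up k hk (j + k * T - k)
    rw [Nat.add_sub_cancel' hle, hs', hu'] at h3
    linarith
  have dec : ∀ k, s (k + 1) < s k := by
    intro k
    have hb := bad k
    have h3 := h1 k
    rw [max_eq_left hb.le] at h3
    have h4 : 0 < s k := lt_of_le_of_lt (hu0 k) hb
    nlinarith
  have hanti : StrictAnti s := strictAnti_nat_of_succ_lt dec
  have h5 := hanti (show 0 < T by omega)
  have h6 := hs 0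
  rw [Nat.zero_add] at h6
  linarith

private theorem err {D : ℝ × ℝ → ℝ × ℝ} {A : ℝ × ℝ →L[ℝ] ℝ × ℝ} {γ α β : ℝ × ℝ →L[ℝ] ℝ} {l C c ε : ℝ} {x y : ℝ × ℝ}
    (hγ : ∀ v, γ (A v) = l * γ v) (hC : ∀ v, ‖v‖ ≤ C * max |α v| |β v|) (hc : 0 ≤ c) (hcε : ‖γ‖ * c * |C| ≤ ε)
    (h : ‖D x - D y - A (x - y)‖ ≤ c * ‖x - y‖) :
    |γ (D x - D y) - l * γ (x - y)| ≤ ε * max |α (x - y)| |β (x - y)| := by
  have h1 : γ (D x - D y) - l * γ (x - y) = γ (D x - D y - A (x - y)) := by
    rw [map_sub γ (D x - D y), hγ]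
  have hM : 0 ≤ max |α (x - y)| |β (x - y)| := (abs_nonneg _).trans (le_max_left _ _)
  rw [h1, ← Real.norm_eq_abs]
  calc ‖γ (D x - D y - A (x - y))‖ ≤ ‖γ‖ * ‖D x - D y - A (x - y)‖ := γ.le_opNorm _
    _ ≤ ‖γ‖ * (c * ‖x - y‖) := mul_le_mul_of_nonneg_left h (norm_nonneg _)
    _ ≤ ‖γ‖ * (c * (C * max |α (x - y)| |β (x - y)|)) := by
        gcongr
        exact hC _
    _ ≤ ‖γ‖ * (c * (|C| * max |α (x - y)| |β (x - y)|)) := by
        gcongr
        exact le_abs_self C
    _ = (‖γ‖ * c * |C|) * max |α (x - y)| |β (x - y)| := by ring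
    _ ≤ ε * max |α (x - y)| |β (x - y)| := mul_le_mul_of_nonneg_right hcε hM

private theorem sgn_step {m ε b b1 b2 : ℝ} (hε : 0 < ε) (hε1 : ε < 1) (hm : 1 ≤ |m|) (h1 : |b1 - m * b| ≤ ε * |b|)
    (h2 : |b2 - m * b1| ≤ ε * |b1|) (hb : 0 < b) : 0 < b2 := by
  rw [abs_le] at h1 h2
  rw [abs_of_pos hb] at h1
  rcases le_abs.1 hm with hm1 | hm1
  · have h3 : 0 < b1 := by nlinarith [h1.1]
    rw [abs_of_pos h3] at h2
    nlinarith [h2.1]
  · have h3 : b1 < 0 := by nlinarith [h1.2]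
    rw [abs_of_neg h3] at h2
    nlinarith [h2.1]

private theorem sgn_step' {m ε b b1 b2 : ℝ} (hε : 0 < ε) (hε1 : ε < 1) (hm : 1 ≤ |m|) (h1 : |b1 - m * b| ≤ ε * |b|)
    (h2 : |b2 - m * b1| ≤ ε * |b1|) (hb : b < 0) : b2 < 0 := by
  have h3 := sgn_step (b := -b) (b1 := -b1) (b2 := -b2) hε hε1 hm
    (by rw [abs_neg, ← abs_neg (-b1 - m * -b)]; convert h1 using 2; ring)
    (by rw [abs_neg, ← abs_neg (-b2 - m * -b1)]; convert h2 using 2; ring) (by linarith)
  linarith

/-- CHUNK C3. PROOF. Take `ε > 0` with `|l| + ε < 1 - ε`. By strict differentiability and `hC` there is a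
neighbourhood `U` of `p` such that for `x, y ∈ U`, with `M = max |α (x - y)| |β (x - y)|`,
`|α (D x - D y) - l * α (x - y)| ≤ ε * M` and `|β (D x - D y) - m * β (x - y)| ≤ ε * M`.
(1) Let `x, y` be periodic (common period `T ≥ 1`) with orbits in `U`, `s j = |α (D^[j] x - D^[j] y)|`,
`u j = |β (D^[j] x - D^[j] y)|`. Then `s j ≤ u j` for all `j`: if `u j < s j` for some `j`, choose such a `j` with `1 ≤ j`
(periodicity) and `s j` maximal; if `s (j-1) ≤ u (j-1)` then `u j ≥ (1 - ε) u (j-1) ≥ (|l| + ε) u (j-1) ≥ s j`, a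
contradiction (if `u (j-1) = 0` then `s j = 0 ≤ u j`); so `u (j-1) < s (j-1)`, hence `s j ≤ (|l| + ε) s (j-1) < s (j-1)`
against the maximality (with `j - 1` replaced by `j - 1 + T`).
(2) By (1), `β (D x - D y)` has the sign of `m * β (x - y)` (difference at most `ε |β (x - y)| < |m| |β (x - y)|`), so
`β (D (D x) - D (D y))` has the sign of `β (x - y)`. Apply this to `x` and `D (D x)`: if `0 < β (D (D x) - x)` then
`j ↦ β (D^[2 * j] x)` is strictly increasing, impossible for a periodic point; same for `< 0`. So `β (D (D x) - x) = 0`, by (1)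
also `α (D (D x) - x) = 0`, and `D (D x) = x` by `hC`. -/
theorem local_saddle {D : ℝ × ℝ → ℝ × ℝ} {p : ℝ × ℝ} {A : ℝ × ℝ →L[ℝ] ℝ × ℝ}
    (hD : HasStrictFDerivAt D A p) {α β : ℝ × ℝ →L[ℝ] ℝ} {l m C : ℝ} (hl : |l| < 1) (hm : 1 ≤ |m|)
    (hα : ∀ v, α (A v) = l * α v) (hβ : ∀ v, β (A v) = m * β v)
    (hC : ∀ v, ‖v‖ ≤ C * max |α v| |β v|) :
    ∃ U ∈ nhds p, ∀ x, x ∈ Function.periodicPts D → (∀ j, D^[j] x ∈ U) → D (D x) = x := by
  obtain ⟨ε, hε, hε2⟩ : ∃ ε : ℝ, 0 < ε ∧ |l| + ε < 1 - ε := ⟨(1 - |l|) / 4, by linarith, by linarith⟩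
  have hε1 : ε < 1 := by linarith [abs_nonneg l]
  set c : ℝ := ε / ((‖α‖ + ‖β‖ + 1) * (|C| + 1)) with hc
  have hden : 0 < (‖α‖ + ‖β‖ + 1) * (|C| + 1) := by positivity
  have hcpos : 0 < c := div_pos hε hden
  have hcden : c * ((‖α‖ + ‖β‖ + 1) * (|C| + 1)) = ε := div_mul_cancel₀ _ hden.ne'
  have hcα : ‖α‖ * c * |C| ≤ ε := by
    rw [← hcden]
    have h1 : ‖α‖ * |C| ≤ (‖α‖ + ‖β‖ + 1) * (|C| + 1) := by
      have := norm_nonneg α
      have := norm_nonneg β
      have := abs_nonneg C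
      nlinarith [mul_nonneg (norm_nonneg β) (abs_nonneg C)]
    calc ‖α‖ * c * |C| = c * (‖α‖ * |C|) := by ring
      _ ≤ _ := mul_le_mul_of_nonneg_left h1 hcpos.le
  have hcβ : ‖β‖ * c * |C| ≤ ε := by
    rw [← hcden]
    have h1 : ‖β‖ * |C| ≤ (‖α‖ + ‖β‖ + 1) * (|C| + 1) := by
      have := norm_nonneg α
      have := norm_nonneg β
      have := abs_nonneg C
      nlinarith [mul_nonneg (norm_nonneg α) (abs_nonneg C)]
    calc ‖β‖ * c * |C| = c * (‖β‖ * |C|) := by ring
      _ ≤ _ := mul_le_mul_of_nonneg_left h1 hcpos.le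
  obtain ⟨U, hU, happ⟩ := hD.approximates_deriv_on_nhds (c := ⟨c, hcpos.le⟩) (Or.inr hcpos)
  have happ' : ∀ x ∈ U, ∀ y ∈ U, ‖D x - D y - A (x - y)‖ ≤ c * ‖x - y‖ := fun x hx y hy => happ x hx y hy
  refine ⟨U, hU, fun x hx hxU => ?_⟩
  obtain ⟨T, hT, hper⟩ := hx
  set X : ℕ → ℝ × ℝ := fun j => D^[j] x with hX
  have hXs : ∀ j, X (j + 1) = D (X j) := fun j => Function.iterate_succ_apply' D j x
  have hXT : ∀ j, X (j + T) = X j := by
    intro j
    change D^[j + T] x = D^[j] x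
    rw [Function.iterate_add_apply]
    congr 1
  have eα : ∀ j, |α (X (j + 1) - X (j + 3)) - l * α (X j - X (j + 2))| ≤
      ε * max |α (X j - X (j + 2))| |β (X j - X (j + 2))| := by
    intro j
    have h1 := err (D := D) (A := A) (α := α) (β := β) (x := X j) (y := X (j + 2)) hα hC hcpos.le hcα
      (happ' _ (hxU j) _ (hxU (j + 2)))
    rwa [← hXs, ← hXs] at h1
  have eβ : ∀ j, |β (X (j + 1) - X (j + 3)) - m * β (X j - X (j + 2))| ≤
      ε * max |α (X j - X (j + 2))| |β (X j - X (j + 2))| := by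
    intro j
    have h1 := err (D := D) (A := A) (α := α) (β := β) (x := X j) (y := X (j + 2)) hβ hC hcpos.le hcβ
      (happ' _ (hxU j) _ (hxU (j + 2)))
    rwa [← hXs, ← hXs] at h1
  have hT1 : 1 ≤ T := hT
  have hcone := cone (s := fun j => |α (X j - X (j + 2))|) (u := fun j => |β (X j - X (j + 2))|) (L := |l|)
    (M := |m|) (ε := ε) hT1
    (fun j => by rw [hXT, show j + T + 2 = (j + 2) + T by omega, hXT])
    (fun j => by rw [hXT, show j + T + 2 = (j + 2) + T by omega, hXT])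
    (fun j => abs_nonneg _) (abs_nonneg _) hm hε hε2
    (fun j => by
      have h1 := eα j
      have h2 := abs_sub_abs_le_abs_sub (α (X (j + 1) - X (j + 3))) (l * α (X j - X (j + 2)))
      rw [abs_mul] at h2
      rw [show j + 1 + 2 = j + 3 from rfl]
      linarith)
    (fun j => by
      have h1 := eβ j
      have h2 := abs_sub_abs_le_abs_sub (m * β (X j - X (j + 2))) (β (X (j + 1) - X (j + 3)))
      rw [abs_mul, abs_sub_comm] at h2
      rw [show j + 1 + 2 = j + 3 from rfl]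
      linarith)
  set b : ℕ → ℝ := fun j => β (X j - X (j + 2)) with hb
  have hbs : ∀ j, |b (j + 1) - m * b j| ≤ ε * |b j| := by
    intro j
    have h1 := eβ j
    rw [max_eq_right (hcone j)] at h1
    exact h1
  have hb0 : b 0 = 0 := by
    rcases lt_trichotomy (b 0) 0 with h0 | h0 | h0
    · exfalso
      have hneg : ∀ i, b (2 * i) < 0 := by
        intro i
        induction i with
        | zero => exact h0
        | succ i ih => exact sgn_step' hε hε1 hm (hbs (2 * i)) (hbs (2 * i + 1)) ih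
      have hmono : StrictMono fun i => β (X (2 * i)) := by
        refine strictMono_nat_of_lt_succ fun i => ?_
        have h1 := hneg i
        simp only [hb, map_sub] at h1
        rw [show 2 * (i + 1) = 2 * i + 2 by ring]
        linarith
      have h2 := hmono (show 0 < T by omega)
      have h3 : X (2 * T) = X (2 * 0) := by
        rw [show 2 * T = (0 + T) + T by ring, hXT, hXT]
      simp only [h3] at h2
      exact lt_irrefl _ h2
    · exact h0
    · exfalso
      have hpos : ∀ i, 0 < b (2 * i) := by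
        intro i
        induction i with
        | zero => exact h0
        | succ i ih => exact sgn_step hε hε1 hm (hbs (2 * i)) (hbs (2 * i + 1)) ih
      have hmono : StrictAnti fun i => β (X (2 * i)) := by
        refine strictAnti_nat_of_succ_lt fun i => ?_
        have h1 := hpos i
        simp only [hb, map_sub] at h1
        rw [show 2 * (i + 1) = 2 * i + 2 by ring]
        linarith
      have h2 := hmono (show 0 < T by omega)
      have h3 : X (2 * T) = X (2 * 0) := by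
        rw [show 2 * T = (0 + T) + T by ring, hXT, hXT]
      simp only [h3] at h2
      exact lt_irrefl _ h2
  have hfin := hC (X 0 - X (0 + 2))
  have h1 := hcone 0
  have h2 : β (X 0 - X (0 + 2)) = 0 := hb0
  rw [h2, abs_zero] at h1
  have h3 : |α (X 0 - X (0 + 2))| = 0 := le_antisymm h1 (abs_nonneg _)
  rw [h2, h3, abs_zero, max_self, mul_zero] at hfin
  have h4 : X 0 - X (0 + 2) = 0 := norm_le_zero_iff.1 hfin
  have h5 : X 0 = X (0 + 2) := sub_eq_zero.1 h4
  exact h5.symm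

end Pool.Agent.Lib.H29P
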