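import Mathlib

namespace Pool.Agent.Lib.H29P

private theorem det_eq (A : ℝ × ℝ →L[ℝ] ℝ × ℝ) : LinearMap.det (A : ℝ × ℝ →ₗ[ℝ] ℝ × ℝ) =
    (A (1, 0)).1 * (A (0, 1)).2 - (A (0, 1)).1 * (A (1, 0)).2 := by
  rw [← LinearMap.det_toMatrix (Module.Basis.finTwoProd ℝ), Matrix.det_fin_two]
  simp [LinearMap.toMatrix_apply]

private theorem app_eq (A : ℝ × ℝ →L[ℝ] ℝ × ℝ) (v : ℝ × ℝ) : A v =
    ((A (1, 0)).1 * v.1 + (A (0, 1)).1 * v.2, (A (1, 0)).2 * v.1 + (A (0, 1)).2 * v.2) := by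
  have h : v = v.1 • ((1 : ℝ), (0 : ℝ)) + v.2 • ((0 : ℝ), (1 : ℝ)) := by
    ext <;> simp
  have h1 : A v = v.1 • A (1, 0) + v.2 • A (0, 1) := by
    conv_lhs => rw [h]
    rw [map_add, map_smul, map_smul]
  rw [h1]
  ext
  · simp only [Prod.fst_add, Prod.smul_fst, smul_eq_mul]
    ring
  · simp only [Prod.snd_add, Prod.smul_snd, smul_eq_mul]
    ring

private theorem rows {a b c d l m : ℝ} (h1 : l + m = a + d) (h2 : l * m = a * d - b * c) (hne : l ≠ m) :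
    ∃ α1 α2 : ℝ, (α1 ≠ 0 ∨ α2 ≠ 0) ∧ α1 * a + α2 * c = l * α1 ∧ α1 * b + α2 * d = l * α2 := by
  by_cases h : a - m ≠ 0 ∨ b ≠ 0
  · exact ⟨a - m, b, h, by linear_combination (-a) * h1 + h2, by linear_combination (-b) * h1⟩
  · rw [not_or, not_not, not_not] at h
    refine ⟨c, d - m, ?_, by linear_combination (-c) * h1, by linear_combination (-d) * h1 + h2⟩
    by_contra h3
    rw [not_or, not_not, not_not] at h3
    exact hne (by linarith [h.1, h3.2])

private theorem real_case {a b c d l m : ℝ} (h1 : l + m = a + d) (h2 : l * m = a * d - b * c) (hne : l ≠ m) :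
    ∃ α1 α2 β1 β2 : ℝ, α1 * a + α2 * c = l * α1 ∧ α1 * b + α2 * d = l * α2 ∧ β1 * a + β2 * c = m * β1 ∧
      β1 * b + β2 * d = m * β2 ∧ α1 * β2 - α2 * β1 ≠ 0 := by
  obtain ⟨α1, α2, hα, e1, e2⟩ := rows h1 h2 hne
  obtain ⟨β1, β2, hβ, e3, e4⟩ := rows (a := a) (b := b) (c := c) (d := d) (l := m) (m := l)
    (by linear_combination h1) (by linear_combination h2) hne.symm
  refine ⟨α1, α2, β1, β2, e1, e2, e3, e4, fun hE => ?_⟩
  have hml : m - l ≠ 0 := sub_ne_zero.2 hne.symm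
  have k1 : (m - l) * (α1 * β1) = 0 := by linear_combination α1 * (-e3) + β1 * e1 + c * hE
  have k2 : (m - l) * (α2 * β2) = 0 := by linear_combination α2 * (-e4) + β2 * e2 - b * hE
  have k3 : (m - l) * (α1 * β2) = 0 := by linear_combination α1 * (-e4) + β1 * e2 + (d - l) * hE
  have k4 : (m - l) * (α2 * β1) = 0 := by linear_combination k3 - (m - l) * hE
  have j1 := (mul_eq_zero.1 k1).resolve_left hml
  have j2 := (mul_eq_zero.1 k2).resolve_left hml
  have j3 := (mul_eq_zero.1 k3).resolve_left hml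
  have j4 := (mul_eq_zero.1 k4).resolve_left hml
  rcases hα with hα | hα
  · rcases hβ with hβ | hβ
    · exact (mul_ne_zero hα hβ) j1
    · exact (mul_ne_zero hα hβ) j3
  · rcases hβ with hβ | hβ
    · exact (mul_ne_zero hα hβ) j4
    · exact (mul_ne_zero hα hβ) j2

private theorem roots {t D : ℝ} (hD : |D| < 1) (h : 1 + D ≤ |t|) :
    ∃ l m : ℝ, l + m = t ∧ l * m = D ∧ |l| < 1 ∧ 1 ≤ |m| := by
  rw [abs_lt] at hD
  have hsq : (1 + D) ^ 2 ≤ t ^ 2 := by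
    rw [← sq_abs t]
    exact pow_le_pow_left₀ (by linarith) h 2
  have hΔ : (1 - D) ^ 2 ≤ t ^ 2 - 4 * D := by nlinarith
  obtain ⟨ρ, hρ⟩ : ∃ ρ, ρ = √(t ^ 2 - 4 * D) := ⟨_, rfl⟩
  have hρ2 : ρ ^ 2 = t ^ 2 - 4 * D := by
    rw [hρ]
    exact Real.sq_sqrt (le_trans (sq_nonneg _) hΔ)
  have hρ1 : 1 - D ≤ ρ := by
    rw [hρ]
    exact Real.le_sqrt_of_sq_le hΔ
  have key : ∀ l m : ℝ, l * m = D → 1 ≤ |m| → |l| < 1 := by
    intro l m hlm hm
    have h1 : |l| * |m| = |D| := by rw [← abs_mul, hlm]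
    have h2 : |D| < 1 := abs_lt.2 hD
    by_contra hl
    push Not at hl
    nlinarith [abs_nonneg l, abs_nonneg m]
  rcases le_total 0 t with ht | ht
  · rw [abs_of_nonneg ht] at h
    have hm : 1 ≤ |(t + ρ) / 2| := by
      rw [abs_of_nonneg (by linarith)]
      linarith
    have hlm : (t - ρ) / 2 * ((t + ρ) / 2) = D := by linear_combination (-1 / 4) * hρ2
    exact ⟨(t - ρ) / 2, (t + ρ) / 2, by ring, hlm, key _ _ hlm hm, hm⟩
  · rw [abs_of_nonpos ht] at h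
    have hm : 1 ≤ |(t - ρ) / 2| := by
      rw [abs_of_nonpos (by linarith)]
      linarith
    have hlm : (t + ρ) / 2 * ((t - ρ) / 2) = D := by linear_combination (-1 / 4) * hρ2
    exact ⟨(t + ρ) / 2, (t - ρ) / 2, by ring, hlm, key _ _ hlm hm, hm⟩

private theorem seq_zero {t D : ℝ} (hD : |D| < 1) (h : |t| < 1 + D) (q : ℕ → ℝ)
    (hq : ∀ n, q (n + 2) = t * q (n + 1) - D * q n) : Filter.Tendsto q Filter.atTop (nhds 0) := by
  rw [abs_lt] at hD h
  have hs : 0 < 1 + D := by linarith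
  have hs' : 0 < 1 - D := by linarith
  obtain ⟨V, hV⟩ : ∃ V : ℕ → ℝ, V = fun n => (1 + D) * (q n ^ 2 + q (n + 1) ^ 2) - 2 * t * q n * q (n + 1) :=
    ⟨_, rfl⟩
  obtain ⟨g, hg⟩ : ∃ g : ℕ → ℝ, g = fun n => t * q (n + 1) - (1 + D) * q n := ⟨_, rfl⟩
  have hstep : ∀ n, V n - V (n + 1) = (1 - D) * g n ^ 2 := by
    intro n
    rw [hV, hg]
    show (1 + D) * (q n ^ 2 + q (n + 1) ^ 2) - 2 * t * q n * q (n + 1) -
      ((1 + D) * (q (n + 1) ^ 2 + q (n + 2) ^ 2) - 2 * t * q (n + 1) * q (n + 2)) =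
      (1 - D) * (t * q (n + 1) - (1 + D) * q n) ^ 2
    rw [hq n]
    ring
  have hV0 : ∀ n, 0 ≤ V n := by
    intro n
    rw [hV]
    show 0 ≤ (1 + D) * (q n ^ 2 + q (n + 1) ^ 2) - 2 * t * q n * q (n + 1)
    have h1 : 0 ≤ (1 + D - t) * (q n + q (n + 1)) ^ 2 := mul_nonneg (by linarith [h.2]) (sq_nonneg _)
    have h2 : 0 ≤ (1 + D + t) * (q n - q (n + 1)) ^ 2 := mul_nonneg (by linarith [h.1]) (sq_nonneg _)
    nlinarith
  have hanti : Antitone V := by
    refine antitone_nat_of_succ_le fun n => ?_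
    have h1 := hstep n
    have h2 : 0 ≤ (1 - D) * g n ^ 2 := mul_nonneg hs'.le (sq_nonneg _)
    linarith
  have hlim : Filter.Tendsto V Filter.atTop (nhds (⨅ n, V n)) :=
    tendsto_atTop_ciInf hanti ⟨0, by rintro _ ⟨n, rfl⟩; exact hV0 n⟩
  have hdiff : Filter.Tendsto (fun n => V n - V (n + 1)) Filter.atTop (nhds 0) := by
    have h1 := hlim.sub (hlim.comp (Filter.tendsto_add_atTop_nat 1))
    rw [sub_self] at h1
    exact h1
  have hg2 : Filter.Tendsto (fun n => g n ^ 2) Filter.atTop (nhds 0) := by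
    have h1 := hdiff.const_mul (1 - D)⁻¹
    rw [mul_zero] at h1
    refine h1.congr fun n => ?_
    rw [hstep, ← mul_assoc, inv_mul_cancel₀ hs'.ne', one_mul]
  have hg0 : Filter.Tendsto g Filter.atTop (nhds 0) := by
    rw [tendsto_zero_iff_abs_tendsto_zero]
    have h1 := (Real.continuous_sqrt.tendsto 0).comp hg2
    rw [Real.sqrt_zero] at h1
    refine h1.congr fun n => ?_
    show √(g n ^ 2) = |g n|
    exact Real.sqrt_sq_eq_abs _
  have hc : (1 + D) ^ 2 - t ^ 2 ≠ 0 := by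
    have : 0 < (1 + D - t) * (1 + D + t) := mul_pos (by linarith [h.2]) (by linarith [h.1])
    nlinarith
  have h1 := ((hg0.const_mul (t ^ 2 - 1 - D)).sub ((hg0.comp (Filter.tendsto_add_atTop_nat 1)).const_mul t)).const_mul
    ((1 + D) ^ 2 - t ^ 2)⁻¹
  rw [mul_zero, mul_zero, sub_zero, mul_zero] at h1
  refine h1.congr fun n => ?_
  have h2 : (t ^ 2 - 1 - D) * g n - t * g (n + 1) = ((1 + D) ^ 2 - t ^ 2) * q n := by
    rw [hg]
    show (t ^ 2 - 1 - D) * (t * q (n + 1) - (1 + D) * q n) - t * (t * q (n + 2) - (1 + D) * q (n + 1)) = _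
    rw [hq n]
    ring
  show ((1 + D) ^ 2 - t ^ 2)⁻¹ * ((t ^ 2 - 1 - D) * g n - t * g (n + 1)) = q n
  rw [h2, ← mul_assoc, inv_mul_cancel₀ hc, one_mul]

/-- CHUNK C4. PROOF. Let `A = [[a11, a12], [a21, a22]]`, `t` the trace, `d` the determinant, `|d| < 1`.
(i) `|t| < 1 + d`. `A ^ 2 = t A - d` (Cayley-Hamilton), so `A ^ (n+1) = q (n+1) • A - (d * q n) • 1` with `q 0 = 0`, `q 1 = 1`,
`q (n+2) = t * q (n+1) - d * q n`. Put `V n = q n ^ 2 + q (n+1) ^ 2 - (2 * t / (1 + d)) * q n * q (n+1)`; then `0 ≤ V n`,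
`V (n+1) - V n = -((1 - d) / (1 + d)) * (t * q (n+1) - (1 + d) * q n) ^ 2`. So `V` converges, `g n = t * q (n+1) - (1 + d) * q n`
tends to `0`, and `((1 + d) ^ 2 - t ^ 2) * q n = (t ^ 2 - 1 - d) * g n - t * g (n+1)` tends to `0`. So `A ^ n → 0`.
(ii) `1 + d ≤ |t|`. Then `t ^ 2 - 4 d ≥ (1 - d) ^ 2 > 0`, the characteristic polynomial has two real roots `l ≠ m` with
`l * m = d`, and `1 ≤ |m|` for one of them (`χ(1) ≤ 0` or `χ(-1) ≤ 0`), so `|l| < 1`. The rows of `A - m` are left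
eigenvectors for `l` (`(A - m) (A - l) = 0`), not both zero; a nonzero one gives `α`; the same for `β`; `α`, `β` are linearly
independent, which gives `C`. -/
theorem linear_alternative (A : ℝ × ℝ →L[ℝ] ℝ × ℝ)
    (hA : |LinearMap.det (A : ℝ × ℝ →ₗ[ℝ] ℝ × ℝ)| < 1) :
    (∃ N : ℕ, 1 ≤ N ∧ ‖A ^ N‖ ≤ 1 / 2) ∨
    ∃ (α β : ℝ × ℝ →L[ℝ] ℝ) (l m C : ℝ), |l| < 1 ∧ 1 ≤ |m| ∧ (∀ v, α (A v) = l * α v) ∧
      (∀ v, β (A v) = m * β v) ∧ ∀ v, ‖v‖ ≤ C * max |α v| |β v| := by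
  rw [det_eq] at hA
  have happ := app_eq A
  generalize (A (1, 0)).1 = a at hA happ
  generalize (A (0, 1)).2 = d at hA happ
  generalize (A (0, 1)).1 = b at hA happ
  generalize (A (1, 0)).2 = c at hA happ
  obtain ⟨D, hD⟩ : ∃ D, D = a * d - b * c := ⟨_, rfl⟩
  rw [← hD] at hA
  rcases lt_or_ge |a + d| (1 + D) with h | h
  · left
    obtain ⟨q, hq0, hq1, hq⟩ : ∃ q : ℕ → ℝ, q 0 = 0 ∧ q 1 = 1 ∧ ∀ n, q (n + 2) = (a + d) * q (n + 1) - D * q n := by
      refine ⟨fun n => (Nat.rec ((0 : ℝ), (1 : ℝ)) (fun _ p => (p.2, (a + d) * p.2 - D * p.1)) n : ℝ × ℝ).1, rfl, rfl,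
        fun n => rfl⟩
    have hlim := seq_zero hA h q hq
    have hCH : A * A = (a + d) • A - D • (1 : ℝ × ℝ →L[ℝ] ℝ × ℝ) := by
      ext
      all_goals
        simp only [ContinuousLinearMap.comp_apply, mul_apply_eq_comp, sub_apply,
          smul_apply, one_apply_eq_self, Prod.fst_sub, Prod.snd_sub, Prod.smul_fst,
          Prod.smul_snd, smul_eq_mul]
        simp only [happ, hD]
        simp only [ContinuousLinearMap.inl_apply, ContinuousLinearMap.inr_apply]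
        ring
    have hpow : ∀ n, A ^ (n + 1) = q (n + 1) • A - (D * q n) • (1 : ℝ × ℝ →L[ℝ] ℝ × ℝ) := by
      intro n
      induction n with
      | zero =>
        rw [hq0, hq1]
        simp
      | succ n ih =>
        have h1 : A ^ (n + 1 + 1) = A ^ (n + 1) * A := pow_succ _ _
        have h2 : q (n + 1 + 1) = (a + d) * q (n + 1) - D * q n := hq n
        rw [h1, ih, sub_mul, smul_mul_assoc, smul_mul_assoc, one_mul, hCH, h2]
        module
    have hlim1 : Filter.Tendsto (fun n => q (n + 1) • A - (D * q n) • (1 : ℝ × ℝ →L[ℝ] ℝ × ℝ)) Filter.atTop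
        (nhds ((0 : ℝ) • A - (D * 0) • (1 : ℝ × ℝ →L[ℝ] ℝ × ℝ))) :=
      ((hlim.comp (Filter.tendsto_add_atTop_nat 1)).smul_const A).sub ((hlim.const_mul D).smul_const _)
    rw [zero_smul, mul_zero, zero_smul, sub_zero] at hlim1
    have hev := hlim1.norm.eventually_lt_const (show ‖(0 : ℝ × ℝ →L[ℝ] ℝ × ℝ)‖ < 1 / 2 by simp)
    obtain ⟨n, hn⟩ := hev.exists
    refine ⟨n + 1, by omega, ?_⟩
    rw [hpow]
    exact hn.le
  · right
    obtain ⟨l, m, h1, h2, hl, hm⟩ := roots hA h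
    have hne : l ≠ m := by
      rintro rfl
      linarith
    obtain ⟨α1, α2, β1, β2, e1, e2, e3, e4, hE⟩ := real_case (a := a) (b := b) (c := c) (d := d) h1
      (by rw [h2, hD]) hne
    obtain ⟨α, hα⟩ : ∃ α : ℝ × ℝ →L[ℝ] ℝ, ∀ v, α v = α1 * v.1 + α2 * v.2 :=
      ⟨α1 • ContinuousLinearMap.fst ℝ ℝ ℝ + α2 • ContinuousLinearMap.snd ℝ ℝ ℝ, fun v => by simp⟩
    obtain ⟨β, hβ⟩ : ∃ β : ℝ × ℝ →L[ℝ] ℝ, ∀ v, β v = β1 * v.1 + β2 * v.2 :=
      ⟨β1 • ContinuousLinearMap.fst ℝ ℝ ℝ + β2 • ContinuousLinearMap.snd ℝ ℝ ℝ, fun v => by simp⟩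
    refine ⟨α, β, l, m, (|α1| + |α2| + |β1| + |β2|) / |α1 * β2 - α2 * β1|, hl, hm, fun v => ?_, fun v => ?_,
      fun v => ?_⟩
    · rw [hα, hα, happ v]
      show α1 * (a * v.1 + b * v.2) + α2 * (c * v.1 + d * v.2) = l * (α1 * v.1 + α2 * v.2)
      linear_combination v.1 * e1 + v.2 * e2
    · rw [hβ, hβ, happ v]
      show β1 * (a * v.1 + b * v.2) + β2 * (c * v.1 + d * v.2) = m * (β1 * v.1 + β2 * v.2)
      linear_combination v.1 * e3 + v.2 * e4
    · have hEp : 0 < |α1 * β2 - α2 * β1| := abs_pos.2 hE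
      obtain ⟨M, hM⟩ : ∃ M, M = max |α v| |β v| := ⟨_, rfl⟩
      have hMa : |α v| ≤ M := by rw [hM]; exact le_max_left _ _
      have hMb : |β v| ≤ M := by rw [hM]; exact le_max_right _ _
      have hM0 : 0 ≤ M := (abs_nonneg _).trans hMa
      rw [← hM, div_mul_eq_mul_div, le_div_iff₀ hEp, Prod.norm_def, max_mul_of_nonneg _ _ hEp.le]
      refine max_le ?_ ?_
      · rw [Real.norm_eq_abs, ← abs_mul]
        have h3 : v.1 * (α1 * β2 - α2 * β1) = β2 * α v - α2 * β v := by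
          rw [hα, hβ]
          ring
        rw [h3]
        calc |β2 * α v - α2 * β v| ≤ |β2 * α v| + |α2 * β v| := abs_sub _ _
          _ = |β2| * |α v| + |α2| * |β v| := by rw [abs_mul, abs_mul]
          _ ≤ |β2| * M + |α2| * M := add_le_add (mul_le_mul_of_nonneg_left hMa (abs_nonneg _))
            (mul_le_mul_of_nonneg_left hMb (abs_nonneg _))
          _ ≤ (|α1| + |α2| + |β1| + |β2|) * M := by
            have k1 := mul_nonneg (abs_nonneg α1) hM0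
            have k2 := mul_nonneg (abs_nonneg β1) hM0
            linarith
      · rw [Real.norm_eq_abs, ← abs_mul]
        have h3 : v.2 * (α1 * β2 - α2 * β1) = α1 * β v - β1 * α v := by
          rw [hα, hβ]
          ring
        rw [h3]
        calc |α1 * β v - β1 * α v| ≤ |α1 * β v| + |β1 * α v| := abs_sub _ _
          _ = |α1| * |β v| + |β1| * |α v| := by rw [abs_mul, abs_mul]
          _ ≤ |α1| * M + |β1| * M := add_le_add (mul_le_mul_of_nonneg_left hMb (abs_nonneg _))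
            (mul_le_mul_of_nonneg_left hMa (abs_nonneg _))
          _ ≤ (|α1| + |α2| + |β1| + |β2|) * M := by
            have k1 := mul_nonneg (abs_nonneg α2) hM0
            have k2 := mul_nonneg (abs_nonneg β2) hM0
            linarith

end Pool.Agent.Lib.H29P
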