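import Mathlib

namespace Pool.Agent.Lib.H29P

private theorem symm_iter {X : Type*} [TopologicalSpace X] (D : X ≃ₜ X) (k : ℕ) (w : X) :
    D.symm^[k] (D^[k] w) = w :=
  (Function.LeftInverse.iterate (f := D) (g := D.symm) D.symm_apply_apply k) w

/-- CHUNK C5. PROOF. Choose `r > 0` with `closedBall p r ⊆ U`. `K n = {z ∈ P | z ∉ ball p r ∧ ∀ j, 1 ≤ j → j ≤ n →
D.symm^[j] z ∈ closedBall p r}` is compact and decreasing. If all `K n` are nonempty there is a `z` in all of them
(`IsCompact.nonempty_iInter_of_sequence_nonempty_isCompact_isClosed`); `D^[N] z = z` for some `N ≥ 1`, so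
`D^[j] z = D.symm^[N * j + N - j] z ∈ closedBall p r` for all `j`, so `z = p`, against `z ∉ ball p r`. So `K n = ∅` for some
`n`. Let `V` be the set of all `x` with `D^[j] x ∈ ball p r` for `j ≤ n`, an open set that contains `p`. If `x ∈ V ∩ P` and
`x ≠ p`, then by `h` the orbit of `x` leaves `ball p r`; let `m` be the first time; `n < m`, and
`z = D^[m] x ∈ K n`, a contradiction. -/
theorem exit_lemma {X : Type*} [MetricSpace X] (D : X ≃ₜ X) {P : Set X} (hP : IsCompact P)
    (hinv : ∀ x ∈ P, D x ∈ P) (hper : ∀ x ∈ P, x ∈ Function.periodicPts D) {p : X} (hp : D p = p)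
    {U : Set X} (hU : U ∈ nhds p) (h : ∀ x ∈ P, (∀ j, D^[j] x ∈ U) → x = p) :
    ∃ V ∈ nhds p, ∀ x ∈ V ∩ P, x = p := by
  obtain ⟨r, hr, hrU⟩ := Metric.nhds_basis_closedBall.mem_iff.1 hU
  have hiterP : ∀ (m : ℕ) (x : X), x ∈ P → D^[m] x ∈ P := by
    intro m
    induction m with
    | zero => exact fun x hx => hx
    | succ m ih =>
      intro x hx
      rw [Function.iterate_succ_apply']
      exact hinv _ (ih x hx)
  have hiterp : ∀ m : ℕ, D^[m] p = p := fun m => Function.iterate_fixed hp m
  let K : ℕ → Set X := fun n => {z | z ∈ P ∧ z ∉ Metric.ball p r ∧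
    ∀ j, 1 ≤ j → j ≤ n → D.symm^[j] z ∈ Metric.closedBall p r}
  have hKcl : ∀ n, IsClosed (K n) := by
    intro n
    refine IsClosed.and hP.isClosed (IsClosed.and ?_ ?_)
    · exact Metric.isOpen_ball.isClosed_compl
    · have h1 : {z : X | ∀ j, 1 ≤ j → j ≤ n → D.symm^[j] z ∈ Metric.closedBall p r} =
          ⋂ j : ℕ, ⋂ _ : 1 ≤ j, ⋂ _ : j ≤ n, (D.symm^[j]) ⁻¹' Metric.closedBall p r := by
        ext z
        simp only [Set.mem_iInter, Set.mem_preimage]
        rfl
      have h2 : IsClosed (⋂ j : ℕ, ⋂ _ : 1 ≤ j, ⋂ _ : j ≤ n, (D.symm^[j]) ⁻¹' Metric.closedBall p r) :=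
        isClosed_iInter fun j => isClosed_iInter fun _ => isClosed_iInter fun _ =>
          Metric.isClosed_closedBall.preimage (D.symm.continuous.iterate j)
      rw [← h1] at h2
      exact h2
  have hKdec : ∀ n, K (n + 1) ⊆ K n := by
    rintro n z ⟨h1, h2, h3⟩
    exact ⟨h1, h2, fun j hj hj' => h3 j hj (by omega)⟩
  have hKsub : ∀ n, K n ⊆ P := fun n z hz => hz.1
  have hempty : ∃ n, ¬ (K n).Nonempty := by
    by_contra hcon
    push Not at hcon
    obtain ⟨z, hz⟩ := IsCompact.nonempty_iInter_of_sequence_nonempty_isCompact_isClosed K hKdec hcon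
      (hP.of_isClosed_subset (hKcl 0) (hKsub 0)) hKcl
    have hz' : ∀ n, z ∈ K n := fun n => Set.mem_iInter.1 hz n
    have hzP : z ∈ P := (hz' 0).1
    obtain ⟨N, hN, hNz⟩ := hper z hzP
    have hN1 : 1 ≤ N := hN
    have hzp : z = p := by
      apply h z hzP
      intro j
      apply hrU
      have hle : j + 1 ≤ N * (j + 1) := Nat.le_mul_of_pos_left _ hN1
      have h1 : D^[N * (j + 1)] z = z := by
        have h2 : Function.IsPeriodicPt D (N * (j + 1)) z := Function.IsPeriodicPt.mul_const hNz (j + 1)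
        exact h2
      have h3 : D^[N * (j + 1) - j] (D^[j] z) = z := by
        rw [← Function.iterate_add_apply]
        rw [show N * (j + 1) - j + j = N * (j + 1) by omega]
        exact h1
      have h4 : D.symm^[N * (j + 1) - j] z = D^[j] z := by
        have h5 := symm_iter D (N * (j + 1) - j) (D^[j] z)
        rw [h3] at h5
        exact h5
      rw [← h4]
      exact (hz' (N * (j + 1) - j)).2.2 _ (by omega) le_rfl
    exact (hz' 0).2.1 (by rw [hzp]; exact Metric.mem_ball_self hr)
  obtain ⟨n, hn⟩ := hempty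
  refine ⟨{x | ∀ j, j ≤ n → D^[j] x ∈ Metric.ball p r}, ?_, ?_⟩
  · have h1 : ∀ j ∈ Set.Iic n, ∀ᶠ x in nhds p, D^[j] x ∈ Metric.ball p r := by
      intro j _
      have hc : ContinuousAt (D^[j]) p := (D.continuous.iterate j).continuousAt
      have h2 : Metric.ball p r ∈ nhds (D^[j] p) := by
        rw [hiterp]
        exact Metric.ball_mem_nhds p hr
      exact hc h2
    exact (Filter.eventually_all_finite (Set.finite_Iic n)).2 h1
  · rintro x ⟨hxV, hxP⟩
    by_contra hne
    have hex : ∃ m, D^[m] x ∉ Metric.ball p r := by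
      by_contra hcon
      push Not at hcon
      exact hne (h x hxP fun j => hrU (Metric.ball_subset_closedBall (hcon j)))
    classical
    have hm := Nat.find_spec hex
    have hmin : ∀ k, k < Nat.find hex → D^[k] x ∈ Metric.ball p r := by
      intro k hk
      by_contra hk'
      exact Nat.find_min hex hk hk'
    set m := Nat.find hex
    have hnm : n < m := by
      by_contra hle
      exact hm (hxV m (by omega))
    refine hn ⟨D^[m] x, hiterP m x hxP, hm, ?_⟩
    intro j hj1 hjn
    have h1 : D^[m] x = D^[j] (D^[m - j] x) := by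
      rw [← Function.iterate_add_apply, show j + (m - j) = m by omega]
    rw [h1, symm_iter]
    exact Metric.ball_subset_closedBall (hmin _ (by omega))

end Pool.Agent.Lib.H29P
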