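import Pool.Agent.Lib.H29P.Defs

namespace Pool.Agent.Lib.H29P

/-- Periodic points are bounded. -/
private theorem bounded (a b : ℝ) (z : ℝ × ℝ) (hz : ∃ k : ℕ, 1 ≤ k ∧ (henon a b)^[k] z = z) :
    |z.1| ≤ 1 + |a| + |b| ∧ |z.2| ≤ 1 + |a| + |b| := by
  obtain ⟨k, hk, hz⟩ := hz
  set f := henon a b with hf
  -- x i = first coordinate of the i-th iterate
  set x : ℕ → ℝ := fun i => (f^[i] z).1 with hx
  have hper : ∀ i, f^[i + k] z = f^[i] z := by
    intro i
    rw [Function.iterate_add_apply, hz]
  have hrec : ∀ i, x (i + 2) = a - x (i + 1) ^ 2 - b * x i := by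
    intro i
    simp only [hx]
    rw [Function.iterate_succ_apply', hf]
    simp only [henon]
    rw [Function.iterate_succ_apply' (henon a b) i z]
    simp [henon]
  obtain ⟨m, hm, hmax⟩ := Finset.exists_max_image (Finset.range k) (fun i => |x i|) ⟨0, by simp; omega⟩
  have hmax' : ∀ i, |x i| ≤ |x m| := by
    intro i
    have h1 : x i = x (i % k) := by
      simp only [hx]
      have : f^[i] z = f^[i % k] z := by
        conv_lhs => rw [← Nat.mod_add_div i k]
        rw [Function.iterate_add_apply, Function.iterate_mul]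
        congr 1
        exact Function.iterate_fixed hz _
      rw [this]
    rw [h1]
    exact hmax _ (Finset.mem_range.2 (Nat.mod_lt _ (by omega)))
  have hkey : |x m| ≤ 1 + |a| + |b| := by
    have h1 := hrec (m + k - 1)
    have e1 : m + k - 1 + 1 = m + k := by omega
    have e2 : m + k - 1 + 2 = m + k + 1 := by omega
    rw [e1, e2] at h1
    have h2 : x (m + k) = x m := by simp only [hx]; rw [hper]
    rw [h2] at h1
    have h3 := hmax' (m + k + 1)
    have h4 := hmax' (m + k - 1)
    by_contra hcon
    push Not at hcon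
    have ha := abs_nonneg a
    have hb := abs_nonneg b
    have h5 : |x m| ^ 2 = a - x (m + k + 1) - b * x (m + k - 1) := by rw [sq_abs]; linarith
    have h6 : a ≤ |a| := le_abs_self a
    have h7 : - x (m + k + 1) ≤ |x m| := le_trans (neg_le_abs _) h3
    have h8 : - (b * x (m + k - 1)) ≤ |b| * |x m| := by
      refine le_trans (neg_le_abs _) ?_
      rw [abs_mul]
      exact mul_le_mul_of_nonneg_left h4 hb
    nlinarith
  refine ⟨?_, ?_⟩
  · have := hmax' 0
    simp only [hx, Function.iterate_zero, id] at this
    exact le_trans this hkey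
  · have h1 : z.2 = x (k - 1) := by
      simp only [hx]
      have h2 : f (f^[k - 1] z) = z := by
        rw [← Function.iterate_succ_apply' f (k - 1) z]
        have : (k - 1).succ = k := by omega
        rw [this, hz]
      have h3 := congrArg Prod.snd h2
      rw [← h3, hf]
      simp [henon]
    rw [h1]
    exact le_trans (hmax' _) hkey


/-- CHUNK C6. PROOF. If `M` is the largest `|x_j|` on the orbit of a periodic point (`x_j` the first coordinate of the `j`-th
point; the second coordinates are `x_{j-1}`), then `M ^ 2 ≤ |a| + (1 + |b|) * M`, so `M ≤ |a| + |b| + 2`. -/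
theorem per_bounded (a b : ℝ) : Bornology.IsBounded (Function.periodicPts (henon a b)) := by
  refine (Metric.isBounded_closedBall (x := (0 : ℝ × ℝ)) (r := 1 + |a| + |b|)).subset ?_
  rintro z ⟨k, hk, hz⟩
  have h := bounded a b z ⟨k, hk, hz⟩
  rw [mem_closedBall_zero_iff, Prod.norm_def]
  exact max_le h.1 h.2

end Pool.Agent.Lib.H29P
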