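import Pool.Agent.Lib.H29P.Defs

namespace Pool.Agent.Lib.H29P

private theorem c7_det (p q r s : ℝ) : LinearMap.det
    (((p • ContinuousLinearMap.fst ℝ ℝ ℝ + q • ContinuousLinearMap.snd ℝ ℝ ℝ).prod
      (r • ContinuousLinearMap.fst ℝ ℝ ℝ + s • ContinuousLinearMap.snd ℝ ℝ ℝ) : ℝ × ℝ →L[ℝ] ℝ × ℝ) :
        ℝ × ℝ →ₗ[ℝ] ℝ × ℝ) = p * s - q * r := by
  rw [← LinearMap.det_toMatrix (Module.Basis.finTwoProd ℝ), Matrix.det_fin_two]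
  simp [LinearMap.toMatrix_apply]

private theorem c7_iter {f : ℝ × ℝ → ℝ × ℝ} {c : ℝ} (hf : ∀ z, ∃ A : ℝ × ℝ →L[ℝ] ℝ × ℝ,
    HasStrictFDerivAt f A z ∧ LinearMap.det (A : ℝ × ℝ →ₗ[ℝ] ℝ × ℝ) = c) (k : ℕ) :
    ∀ z, ∃ A : ℝ × ℝ →L[ℝ] ℝ × ℝ,
      HasStrictFDerivAt f^[k] A z ∧ LinearMap.det (A : ℝ × ℝ →ₗ[ℝ] ℝ × ℝ) = c ^ k := by
  induction k with
  | zero =>
    intro z
    refine ⟨ContinuousLinearMap.id ℝ (ℝ × ℝ), ?_, ?_⟩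
    · rw [Function.iterate_zero]
      exact hasStrictFDerivAt_id z
    · rw [pow_zero, ContinuousLinearMap.coe_id, LinearMap.det_id]
  | succ k ih =>
    intro z
    obtain ⟨A, hA, hA'⟩ := hf z
    obtain ⟨B, hB, hB'⟩ := ih (f z)
    refine ⟨B.comp A, ?_, ?_⟩
    · rw [Function.iterate_succ]
      have h := HasStrictFDerivAt.comp (g := f^[k]) (f := f) z hB hA
      exact h
    · have h : ((B.comp A : ℝ × ℝ →L[ℝ] ℝ × ℝ) : ℝ × ℝ →ₗ[ℝ] ℝ × ℝ) =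
          (B : ℝ × ℝ →ₗ[ℝ] ℝ × ℝ).comp (A : ℝ × ℝ →ₗ[ℝ] ℝ × ℝ) := rfl
      rw [h, LinearMap.det_comp, hA', hB', pow_succ]

private theorem c7_one (a b : ℝ) (z : ℝ × ℝ) : ∃ A : ℝ × ℝ →L[ℝ] ℝ × ℝ,
    HasStrictFDerivAt (henon a b) A z ∧ LinearMap.det (A : ℝ × ℝ →ₗ[ℝ] ℝ × ℝ) = b := by
  have h1 : HasStrictFDerivAt (fun w : ℝ × ℝ => w.1) (ContinuousLinearMap.fst ℝ ℝ ℝ) z :=
    hasStrictFDerivAt_fst
  have h2 : HasStrictFDerivAt (fun w : ℝ × ℝ => w.2) (ContinuousLinearMap.snd ℝ ℝ ℝ) z :=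
    hasStrictFDerivAt_snd
  have h3 := (((hasStrictFDerivAt_const a z).sub (h1.mul h1)).sub (h2.const_mul b)).prodMk h1
  have he : henon a b = fun w : ℝ × ℝ => (a - w.1 * w.1 - b * w.2, w.1) := by
    funext w
    unfold henon
    rw [sq]
  refine ⟨(((-2 * z.1) • ContinuousLinearMap.fst ℝ ℝ ℝ + (-b) • ContinuousLinearMap.snd ℝ ℝ ℝ).prod
      ((1 : ℝ) • ContinuousLinearMap.fst ℝ ℝ ℝ + (0 : ℝ) • ContinuousLinearMap.snd ℝ ℝ ℝ)), ?_, ?_⟩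
  · rw [he]
    refine h3.congr_fderiv ?_
    ext <;> simp <;> ring
  · rw [c7_det]
    ring

private theorem c7_one_symm (a b : ℝ) (hb : b ≠ 0) (z : ℝ × ℝ) : ∃ A : ℝ × ℝ →L[ℝ] ℝ × ℝ,
    HasStrictFDerivAt (henonHomeo a b hb).symm A z ∧ LinearMap.det (A : ℝ × ℝ →ₗ[ℝ] ℝ × ℝ) = b⁻¹ := by
  have h1 : HasStrictFDerivAt (fun w : ℝ × ℝ => w.1) (ContinuousLinearMap.fst ℝ ℝ ℝ) z :=
    hasStrictFDerivAt_fst
  have h2 : HasStrictFDerivAt (fun w : ℝ × ℝ => w.2) (ContinuousLinearMap.snd ℝ ℝ ℝ) z :=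
    hasStrictFDerivAt_snd
  have h3 := h2.prodMk ((((hasStrictFDerivAt_const a z).sub (h2.mul h2)).sub h1).const_mul b⁻¹)
  have he : ((henonHomeo a b hb).symm : ℝ × ℝ → ℝ × ℝ) =
      fun w : ℝ × ℝ => (w.2, b⁻¹ * (a - w.2 * w.2 - w.1)) := by
    funext w
    rw [henonHomeo_symm_apply, sq, div_eq_inv_mul]
  refine ⟨(((0 : ℝ) • ContinuousLinearMap.fst ℝ ℝ ℝ + (1 : ℝ) • ContinuousLinearMap.snd ℝ ℝ ℝ).prod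
      ((-b⁻¹) • ContinuousLinearMap.fst ℝ ℝ ℝ + (-2 * b⁻¹ * z.2) • ContinuousLinearMap.snd ℝ ℝ ℝ)), ?_, ?_⟩
  · rw [he]
    refine h3.congr_fderiv ?_
    ext <;> simp <;> ring
  · rw [c7_det]
    ring

/-- CHUNK C7 (both). The derivative of the iterates has determinant `b ^ k`. -/
theorem henon_deriv (a b : ℝ) (k : ℕ) (z : ℝ × ℝ) : ∃ A : ℝ × ℝ →L[ℝ] ℝ × ℝ,
    HasStrictFDerivAt (henon a b)^[k] A z ∧ LinearMap.det (A : ℝ × ℝ →ₗ[ℝ] ℝ × ℝ) = b ^ k :=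
  c7_iter (c7_one a b) k z

/-- The same for the inverse. -/
theorem henon_symm_deriv (a b : ℝ) (hb : b ≠ 0) (k : ℕ) (z : ℝ × ℝ) : ∃ A : ℝ × ℝ →L[ℝ] ℝ × ℝ,
    HasStrictFDerivAt (henonHomeo a b hb).symm^[k] A z ∧
      LinearMap.det (A : ℝ × ℝ →ₗ[ℝ] ℝ × ℝ) = b⁻¹ ^ k :=
  c7_iter (c7_one_symm a b hb) k z

end Pool.Agent.Lib.H29P
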