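import Mathlib

/-!
# Hénon maps with closed set of periodic points: definitions
-/

namespace Pool.Agent.Lib.H29P

/-- The Hénon map `H_{a,b}(x, y) = (a - x ^ 2 - b y, x)`. -/
def henon (a b : ℝ) (z : ℝ × ℝ) : ℝ × ℝ := (a - z.1 ^ 2 - b * z.2, z.1)

theorem henon_fst (a b : ℝ) (z : ℝ × ℝ) : (henon a b z).1 = a - z.1 ^ 2 - b * z.2 := rfl

theorem henon_snd (a b : ℝ) (z : ℝ × ℝ) : (henon a b z).2 = z.1 := rfl

theorem continuous_henon (a b : ℝ) : Continuous (henon a b) := by
  unfold henon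
  fun_prop

/-- For `b ≠ 0` the Hénon map is a homeomorphism. -/
noncomputable def henonHomeo (a b : ℝ) (hb : b ≠ 0) : ℝ × ℝ ≃ₜ ℝ × ℝ where
  toFun := henon a b
  invFun z := (z.2, (a - z.2 ^ 2 - z.1) / b)
  left_inv z := by
    ext
    · simp [henon]
    · simp only [henon]
      field_simp
      ring
  right_inv z := by
    ext
    · simp only [henon]
      field_simp
      ring
    · simp [henon]
  continuous_toFun := continuous_henon a b
  continuous_invFun := by fun_prop

theorem henonHomeo_apply (a b : ℝ) (hb : b ≠ 0) (z : ℝ × ℝ) : henonHomeo a b hb z = henon a b z := rfl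

theorem henonHomeo_symm_apply (a b : ℝ) (hb : b ≠ 0) (z : ℝ × ℝ) :
    (henonHomeo a b hb).symm z = (z.2, (a - z.2 ^ 2 - z.1) / b) := rfl

end Pool.Agent.Lib.H29P
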