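import Pool.Agent.Lib.H29P.Defs
import Pool.Agent.Lib.H29P.C1
import Pool.Agent.Lib.H29P.C2
import Pool.Agent.Lib.H29P.C3
import Pool.Agent.Lib.H29P.C4
import Pool.Agent.Lib.H29P.C5
import Pool.Agent.Lib.H29P.C6
import Pool.Agent.Lib.H29P.C7

namespace Pool.Agent.Lib.H29P

open Function

/-- A local statement: near a fixed point with `|det A| < 1` the periodic orbits in a small neighbourhood consist of fixed
points of `D ∘ D`. -/
theorem local_any {D : ℝ × ℝ → ℝ × ℝ} {p : ℝ × ℝ} {A : ℝ × ℝ →L[ℝ] ℝ × ℝ} (hp : D p = p)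
    (hD : HasStrictFDerivAt D A p) (hA : |LinearMap.det (A : ℝ × ℝ →ₗ[ℝ] ℝ × ℝ)| < 1) :
    ∃ U ∈ nhds p, ∀ x, x ∈ periodicPts D → (∀ j, D^[j] x ∈ U) → D (D x) = x := by
  rcases linear_alternative A hA with ⟨N, hN, hAN⟩ | ⟨α, β, l, m, C, hl, hm, hα, hβ, hC⟩
  · obtain ⟨U, hU, h⟩ := local_stable hp hD hN hAN
    refine ⟨U, hU, fun x hx hj => ?_⟩
    rw [h x hx hj, hp, hp]
  · exact local_saddle hD hl hm hα hβ hC

/-- The points of a set `P` are isolated if `D = f ^ k` contracts areas. -/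
theorem isolated_of {f : ℝ × ℝ ≃ₜ ℝ × ℝ} {c : ℝ} (hc : |c| < 1)
    (hf : ∀ (k : ℕ) (z : ℝ × ℝ), ∃ A : ℝ × ℝ →L[ℝ] ℝ × ℝ,
      HasStrictFDerivAt f^[k] A z ∧ LinearMap.det (A : ℝ × ℝ →ₗ[ℝ] ℝ × ℝ) = c ^ k)
    (hfin : ∀ n : ℕ, 1 ≤ n → {z : ℝ × ℝ | f^[n] z = z}.Finite)
    (hP : IsCompact (periodicPts f)) {p : ℝ × ℝ} (hp : p ∈ periodicPts f) :
    ∃ V ∈ nhds p, ∀ x ∈ V ∩ periodicPts f, x = p := by
  obtain ⟨k, hk, hkp⟩ := hp
  have hkp' : f^[k] p = p := hkp
  obtain ⟨A, hA, hdet⟩ := hf k p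
  have hlt : |LinearMap.det (A : ℝ × ℝ →ₗ[ℝ] ℝ × ℝ)| < 1 := by
    rw [hdet, abs_pow]
    exact pow_lt_one₀ (abs_nonneg c) hc (by omega)
  obtain ⟨U, hU, hUD⟩ := local_any hkp' hA hlt
  -- the homeomorphism `D = f ^ k`
  obtain ⟨D, hD⟩ : ∃ D : ℝ × ℝ ≃ₜ ℝ × ℝ, ∀ x, D x = f^[k] x := by
    clear hkp hkp' hA hdet hUD hk
    induction k with
    | zero => exact ⟨Homeomorph.refl _, fun x => rfl⟩
    | succ k ih =>
      obtain ⟨D, hD⟩ := ih
      refine ⟨f.trans D, fun x => ?_⟩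
      rw [Homeomorph.trans_apply, hD, iterate_succ_apply]
  have hDf : (D : ℝ × ℝ → ℝ × ℝ) = f^[k] := funext hD
  -- fixed points of `D ^ 2`
  have hfin2 := hfin (k * 2) (by omega)
  have hclosed : IsClosed ({z : ℝ × ℝ | f^[k * 2] z = z} \ {p}) := (hfin2.subset Set.sdiff_subset).isClosed
  have hU' : U ∩ ({z : ℝ × ℝ | f^[k * 2] z = z} \ {p})ᶜ ∈ nhds p :=
    Filter.inter_mem hU (hclosed.isOpen_compl.mem_nhds (by simp))
  refine exit_lemma D hP ?_ ?_ (by rw [hD]; exact hkp') hU' ?_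
  · intro x hx
    obtain ⟨n, hn, hnx⟩ := hx
    refine ⟨n, hn, ?_⟩
    rw [hD]
    have : f^[n] (f^[k] x) = f^[k] x := by
      rw [← iterate_add_apply, add_comm, iterate_add_apply]
      exact congrArg _ hnx
    exact this
  · intro x hx
    obtain ⟨n, hn, hnx⟩ := hx
    refine ⟨n, hn, ?_⟩
    rw [hDf]
    have : (f^[k])^[n] x = x := by
      rw [← iterate_mul, mul_comm, iterate_mul]
      exact iterate_fixed hnx k
    exact this
  · intro x hx hj
    have hx' : x ∈ periodicPts (f^[k]) := by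
      obtain ⟨n, hn, hnx⟩ := hx
      refine ⟨n, hn, ?_⟩
      have : (f^[k])^[n] x = x := by
        rw [← iterate_mul, mul_comm, iterate_mul]
        exact iterate_fixed hnx k
      exact this
    rw [hDf] at hj
    have h1 := hUD x hx' fun j => (hj j).1
    have h2 := (hj 0).2
    by_contra hne
    apply h2
    refine ⟨?_, hne⟩
    show f^[k * 2] x = x
    rw [iterate_mul]
    exact h1

theorem finite_of_isolated {P : Set (ℝ × ℝ)} (hP : IsCompact P)
    (h : ∀ p ∈ P, ∃ V ∈ nhds p, ∀ x ∈ V ∩ P, x = p) : P.Finite := by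
  by_contra hinf
  obtain ⟨p, hpP, hp⟩ := (Set.Infinite.exists_accPt_of_subset_isCompact hinf hP subset_rfl)
  obtain ⟨V, hV, hVP⟩ := h p hpP
  rw [accPt_iff_nhds] at hp
  obtain ⟨y, hy, hyp⟩ := hp V hV
  exact hyp (hVP y hy)

theorem periodicPts_symm (f : ℝ × ℝ ≃ₜ ℝ × ℝ) : periodicPts f.symm = periodicPts f := by
  ext x
  constructor
  · rintro ⟨n, hn, h⟩
    refine ⟨n, hn, ?_⟩
    have h1 : f.symm^[n] x = x := h
    have h2 : f^[n] (f.symm^[n] x) = x := (f.right_inv.iterate n) x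
    rw [h1] at h2
    exact h2
  · rintro ⟨n, hn, h⟩
    refine ⟨n, hn, ?_⟩
    have h1 : f^[n] x = x := h
    have h2 : f.symm^[n] (f^[n] x) = x := (f.left_inv.iterate n) x
    rw [h1] at h2
    exact h2

theorem closed_iff_finite (a b : ℝ) (hb : b ≠ 0) (hb1 : |b| ≠ 1) :
    IsClosed (periodicPts (henon a b)) ↔ (periodicPts (henon a b)).Finite := by
  refine ⟨fun hcl => ?_, fun h => h.isClosed⟩
  have hcomp : IsCompact (periodicPts (henon a b)) := Metric.isCompact_of_isClosed_isBounded hcl (per_bounded a b)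
  have hcomp' : IsCompact (periodicPts (henonHomeo a b hb)) := hcomp
  have hfin : ∀ n : ℕ, 1 ≤ n → {z : ℝ × ℝ | (henonHomeo a b hb)^[n] z = z}.Finite :=
    fun n hn => finite_fix a b n hn
  rcases lt_or_gt_of_ne hb1 with h | h
  · exact finite_of_isolated hcomp' fun p hp =>
      isolated_of (f := henonHomeo a b hb) h (fun k z => henon_deriv a b k z) hfin hcomp' hp
  · have hs := periodicPts_symm (henonHomeo a b hb)
    have hcomp2 : IsCompact (periodicPts (henonHomeo a b hb).symm) := by rw [hs]; exact hcomp'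
    have hfin2 : ∀ n : ℕ, 1 ≤ n → {z : ℝ × ℝ | (henonHomeo a b hb).symm^[n] z = z}.Finite := by
      intro n hn
      refine (hfin n hn).subset fun z hz => ?_
      have h1 : (henonHomeo a b hb).symm^[n] z = z := hz
      have h2 : (henonHomeo a b hb)^[n] ((henonHomeo a b hb).symm^[n] z) = z :=
        ((henonHomeo a b hb).right_inv.iterate n) z
      rw [h1] at h2
      exact h2
    have h3 : (periodicPts (henonHomeo a b hb).symm).Finite :=
      finite_of_isolated hcomp2 fun p hp =>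
        isolated_of (f := (henonHomeo a b hb).symm) (c := b⁻¹) (by
          rw [abs_inv]
          exact inv_lt_one_of_one_lt₀ h) (fun k z => henon_symm_deriv a b hb k z) hfin2 hcomp2 hp
    rw [hs] at h3
    exact h3

end Pool.Agent.Lib.H29P
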